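import Pool.Agent.R498.MP.ULin

set_option autoImplicit false

/-!
# Runs of primes `p` with almost prime `p + t_1` and `p + t_2`, uniformly in the shifts
-/

namespace Pool.Agent.Results.MP_1039f5_nt.PrimeStrings

open Filter

/-- `n` has at most `r` prime factors, counted with multiplicity, all of them at least `w`. -/
def AlmostPrime (r : ℕ) (w : ℝ) (n : ℕ) : Prop :=
  n.primeFactorsList.length ≤ r ∧ ∀ q : ℕ, q.Prime → q ∣ n → w ≤ q

/-- **Runs of primes `p` with almost prime `p + t_1` and `p + t_2`, uniformly in the shifts.** Let `q` be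
squarefree. For every `m` there are `K`, `B` and `δ > 0` such that for every `A` there is an `r` such that, for
every finite set `S` of at least `K` nonnegative integers, the following holds for all large `N`, all
`t_1, t_2 ≤ N ^ A` for which `{0, t_1, t_2}` is admissible, and all `c` for which `c (c + t_1) (c + t_2)` is
coprime to `q` (for instance `q = 1`). There are a subset `H` of `S` with at least `m` elements and at least
`N / (log N) ^ B` numbers `x` with `N < x ≤ x + max S ≤ 2 N` such that for all `s ∈ H` the number `p = x + s`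
is a prime `≡ c` modulo `q` and both `p + t_1` and `p + t_2` have at most `r` prime factors, all of them at
least `N ^ δ`; and no other number `x + y`, `y ≤ max S`, is prime, except possibly if `y = s + t_1` or
`y = s + t_2` for some `s ∈ S`. -/
theorem result (q : ℕ) (hq : Squarefree q) (m : ℕ) : ∃ (K B : ℕ) (δ : ℝ), 0 < δ ∧
    ∀ A : ℕ, ∃ r : ℕ, ∀ S : Finset ℕ, K ≤ S.card → ∀ᶠ N : ℕ in atTop, ∀ t₁ t₂ : ℕ,
      t₁ ≤ N ^ A → t₂ ≤ N ^ A →
      (∀ p : ℕ, p.Prime → ∃ n : ℕ, ¬ p ∣ n * ((n + t₁) * (n + t₂))) →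
      ∀ c : ℕ, Nat.Coprime (c * ((c + t₁) * (c + t₂))) q →
      ∃ H ⊆ S, m ≤ H.card ∧ ∃ T : Finset ℕ, (N : ℝ) ≤ Real.log N ^ B * T.card ∧
        ∀ x ∈ T, N < x ∧ x + S.sup id ≤ 2 * N ∧
          (∀ s ∈ H, (x + s).Prime ∧ x + s ≡ c [MOD q] ∧
            AlmostPrime r ((N : ℝ) ^ δ) (x + s + t₁) ∧ AlmostPrime r ((N : ℝ) ^ δ) (x + s + t₂)) ∧
          ∀ y ≤ S.sup id, y ∉ H → (∀ s ∈ S, y ≠ s + t₁ ∧ y ≠ s + t₂) → ¬ (x + y).Prime := by
  obtain ⟨K, B, δ, hδ, hmain⟩ := Pool.Agent.R498.MP.natlinU 2 q hq m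
  refine ⟨K, B, δ, hδ, fun A => ?_⟩
  obtain ⟨r, hr⟩ := hmain A
  refine ⟨r, fun S hS => ?_⟩
  filter_upwards [hr S hS, eventually_ge_atTop 1] with N hN hN1
  intro t₁ t₂ h1 h2 hadm c hc
  have h3 : 1 ≤ N ^ A := Nat.one_le_pow _ _ hN1
  obtain ⟨H, hH, hHm, T, hT, hmem⟩ := hN (fun _ => 1) ![t₁, t₂] (fun i => ⟨h3, by
      fin_cases i
      · exact h1
      · exact h2⟩) (fun p hp => by
      obtain ⟨n, hn⟩ := hadm p hp
      exact ⟨n, by simpa [Fin.prod_univ_succ] using hn⟩) c (by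
      simpa [Fin.prod_univ_succ] using hc)
  refine ⟨H, hH, hHm, T, hT, fun x hx => ?_⟩
  obtain ⟨g1, g2, g3, g4⟩ := hmem x hx
  refine ⟨g1, g2, fun s hs => ?_, fun y hy hyH hyS => g4 y hy hyH (fun s hs _ i => ?_)⟩
  · obtain ⟨k1, k2, k3⟩ := g3 s hs
    have e0 := k3 0
    have e1 := k3 1
    simp only [one_mul] at e0 e1
    exact ⟨k1, k2, e0, e1⟩
  · obtain ⟨k1, k2⟩ := hyS s hs
    simp only [one_mul]
    fin_cases i
    · exact fun h => k1 h.symm
    · exact fun h => k2 h.symm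

end Pool.Agent.Results.MP_1039f5_nt.PrimeStrings
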