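import Pool.Agent.R490.Tq

set_option autoImplicit false

/-!
# Regular points of arbitrary sets of prime or rough triples in progressions, uniformly in the shifts
-/

namespace Pool.Agent.Results.MP_1039f5_nt.RegularPoints

open Finset Filter

/-- For every prime `p` the set `H` misses a residue class modulo `p`: some `m` makes all `m + h`, `h ∈ H`, prime
to `p`. -/
def Admissible (H : Finset ℕ) : Prop := ∀ p : ℕ, p.Prime → ∃ m : ℕ, ∀ h ∈ H, ¬ p ∣ m + h

/-- No `q m + a + h`, `h ∈ H`, has a prime factor `≤ y`. -/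
def Rough (H : Finset ℕ) (q a y m : ℕ) : Prop := ∀ p : ℕ, p.Prime → p ≤ y → ∀ h ∈ H, ¬ p ∣ q * m + a + h

/-- `0` if `p ∣ q`, otherwise the number of the residue classes modulo `p` which meet `H`. -/
def nu (H : Finset ℕ) (q p : ℕ) : ℕ := if p ∣ q then 0 else (H.image (fun h => h % p)).card

/-- The product of `1 - nu(p) / p` over the primes `p ≤ y`, the density of the `m` with `Rough H q a y m`. -/
noncomputable def V (H : Finset ℕ) (q y : ℕ) : ℝ :=
  ∏ p ∈ (Finset.range (y + 1)).filter Nat.Prime, (1 - (nu H q p : ℝ) / p)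

open Classical in
/-- The number of elements of `S` in `(a, b]`. -/
noncomputable def count (S : Set ℕ) (a b : ℕ) : ℕ := ((Finset.Ioc a b).filter (fun m => m ∈ S)).card

/-- All intervals `(m - s, m + t]` with `s, t ≤ Y` of length at least `L / κ` contain between
`κ (s + t) / L` and `(s + t) / (κ L)` elements of `S`. -/
def RightOrder (S : Set ℕ) (L κ : ℝ) (Y m : ℕ) : Prop :=
  ∀ s t : ℕ, s ≤ Y → t ≤ Y → L ≤ κ * (s + t) →
    κ * (s + t) / L ≤ count S (m - s) (m + t) ∧ (count S (m - s) (m + t) : ℝ) ≤ (s + t) / (κ * L)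

/-- Up to `δ`, `S` has a constant density on both sides of `m` up to the distance `2 ^ j`. -/
def ConstantDensity (S : Set ℕ) (L κ δ : ℝ) (m j : ℕ) : Prop :=
  ∃ lam : ℝ, κ ≤ lam ∧ lam ≤ 1 / κ ∧ ∀ s t : ℕ, s ≤ 2 ^ j → t ≤ 2 ^ j →
    |(count S (m - s) (m + t) : ℝ) - lam * (s + t) / L| ≤ δ * 2 ^ j / L

open Classical in
/-- The number of the scales `L ≤ 2 ^ j ≤ Y` without this property. -/
noncomputable def badScales (S : Set ℕ) (L κ δ : ℝ) (Y m : ℕ) : ℕ :=
  ((Finset.range (Nat.log 2 Y + 1)).filter (fun j => L ≤ (2 : ℝ) ^ j ∧ ¬ ConstantDensity S L κ δ m j)).card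

/-- The elements of `S` that are not regular points of `S`. -/
def Irregular (S : Set ℕ) (L κ δ : ℝ) (M Y : ℕ) : Set ℕ :=
  {m | m ∈ S ∧ ¬ (RightOrder S L κ Y m ∧ badScales S L κ δ Y m ≤ M)}

open Classical in
/-- **Regular points, uniformly.** Let `A` and `θ > 0`. There is `r0` such that for `r ≥ r0` and `ε > 0` there is
`κ > 0`, and for `δ > 0` there is `M`, such that for all large `X`, with `y = X ^ (1 / r)`, ALL
admissible triples `{0, e, d}` with `0 < e < d ≤ X ^ A` (the triples `p - d, p - d', p` of the question with `e = d - d'`, there `d` is at most a power of `log X`), ALL `q, a ≤ X ^ A` with `q` prime to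
all `a + h` (for instance `q = 1`, `a = 0`), all intervals `(u, u + Y]` with `X ^ θ ≤ Y ≤ X`, `Y ≤ u`, and EVERY
set `S` of integers `m` for which no `q m + a + h` has a prime factor `≤ y`, for instance the set of all `m` for
which these are primes `> y`: all but at most `ε Y V` of the elements of `S` in `(u, u + Y]` are regular points of
`S`: all intervals around them of length at least `1 / (κ V)` and at most `Y` to each side contain the right
order of elements of `S`, and `S` has a constant density up to `δ` around them at all but `M` dyadic scales. -/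
theorem result (A : ℕ) (θ : ℝ) (hθ : 0 < θ) :
    ∃ r0 : ℕ, 2 ≤ r0 ∧ ∀ r : ℕ, r0 ≤ r → ∀ ε : ℝ, 0 < ε → ∃ κ : ℝ, 0 < κ ∧
      ∀ δ : ℝ, 0 < δ → ∃ M : ℕ, ∀ᶠ X : ℕ in atTop, ∀ y : ℕ, y = ⌊(X : ℝ) ^ (1 / (r : ℝ))⌋₊ →
      ∀ e d : ℕ, 0 < e → e < d → d ≤ X ^ A → Admissible {0, e, d} →
      ∀ q a : ℕ, 1 ≤ q → q ≤ X ^ A → a ≤ X ^ A → (∀ h ∈ ({0, e, d} : Finset ℕ), Nat.Coprime q (a + h)) →
      ∀ u Y : ℕ, (X : ℝ) ^ θ ≤ Y → Y ≤ X → Y ≤ u → ∀ S : Set ℕ, (∀ m ∈ S, Rough {0, e, d} q a y m) →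
        (count (Irregular S (1 / V {0, e, d} q y) κ δ M Y) u (u + Y) : ℝ) ≤ ε * (Y * V {0, e, d} q y) := by
  obtain ⟨r0, hr0, h0⟩ := Pool.Agent.R490.Tq.treg 3 A (by norm_num) θ hθ
  refine ⟨r0, hr0, fun r hr ε hε => ?_⟩
  obtain ⟨κ, hκ, h1⟩ := h0 r hr ε hε
  refine ⟨κ, hκ, fun δ hδ => ?_⟩
  obtain ⟨M, h2⟩ := h1 δ hδ
  refine ⟨M, ?_⟩
  filter_upwards [h2] with X hX
  intro y hy e d he hed hdX hadm
  exact hX y hy {0, e, d} (by
    rw [Finset.card_insert_of_notMem, Finset.card_pair (by omega)]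
    simp only [Finset.mem_insert, Finset.mem_singleton]
    omega) (by
    intro h hh
    simp only [Finset.mem_insert, Finset.mem_singleton] at hh
    omega) hadm

end Pool.Agent.Results.MP_1039f5_nt.RegularPoints
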